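import Pool.Agent.H865_sch.Final

/-!
# Smooth Schoenflies for 3-spheres whose parametrization extends to a coarsely affine map of the ball

A smooth 3-sphere in `ℝ⁴` (so in `S⁴`) is given together with a continuous map `H` from the closed unit ball to `ℝ⁴`
which is a local diffeomorphism at the points of the unit sphere and injective on the unit sphere, and which maps the
unit sphere onto the given sphere. `H` need not be injective inside the ball. Distances in the ball are measured by a
map `e : ℝ⁴ → ℝᵐ` which is continuous and injective on the closed ball and a smooth immersion of the open ball (for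
example the identity; by the embedding theorem of Nash every Riemannian metric of the closed ball is induced by some
`e`). Let `S` be a set of scales which contains arbitrarily small positive numbers. Suppose that at each interior
point `x` at which `H` is not a local diffeomorphism one of the following conditions holds.

* Coarse coordinates: near `x`, on every ball of a small radius `s ∈ S` (for the distance `‖e u - e w‖`), every
  linear coordinate of `e` differs from some affine function of `H` by at most `η s`, where `η < 3 π / 16`.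
* Coarse similarity: near `x`, on every ball of a small radius `s ∈ S`, for some factor `κ` depending on the ball, the
  distances `κ ‖H u - H w‖` and `‖e u - e w‖` differ by at most `ε s`, where `ε (√2 + ε / 2) < 3 π / 16` (for example
  `ε ≤ 0.368`).
* Bi-Lipschitz: near `x`, for some factor `κ`, `‖e u - e w‖ ≤ κ ‖H u - H w‖ ≤ K ‖e u - e w‖`, where
  `(K² - 1) / (K² + 1) < 3 π / 16` (for example `K ≤ 1.966`, that is, bi-Lipschitz with the constant `1.402`).

Then, on the closed ball, `H` is a uniform limit of diffeomorphisms of `ℝ⁴` which are linear isometries outside a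
compact set and agree with `H` on the unit sphere and outside any given neighbourhood of the set of the interior points
at which `H` is not a local diffeomorphism. In particular the 3-sphere is smoothly unknotted.

The proof. The average of `H` over the balls of radius `s ∈ S` (with a kernel concentrated near the boundary of the
ball) has an invertible derivative near the bad points; the interpolation between the average and `H` is a local
diffeomorphism of the closed ball, equal to `H` near the unit sphere. A local diffeomorphism from the closed ball to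
`ℝ⁴` which is injective on the unit sphere is injective: the set of the points of the sphere which are not in the image
of the open ball is open, closed and nonempty, so the map is proper from the open ball onto its image, and the set of
the double points is open and closed in the image and misses the points near the sphere. Palais' theorem extends the
embedding of the closed ball to a diffeomorphism of `ℝ⁴`.
-/

set_option autoImplicit false

open Set Filter Topology Metric Function
open scoped ContDiff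

namespace Pool.Agent.Results.MP_6c077c_gt.CoarselyAffineBall

/-- `ℝ⁴` -/
abbrev R4 : Type := EuclideanSpace ℝ (Fin 4)

/-- `H` is a local diffeomorphism at `x`: smooth near `x`, with bijective derivative at `x` -/
def LocDiff (H : R4 → R4) (x : R4) : Prop :=
  (∀ᶠ y in 𝓝 x, ContDiffAt ℝ ∞ H y) ∧ Bijective (fderiv ℝ H x)

/-- `G` is a diffeomorphism of `ℝ⁴`, equal to a linear isometry outside a compact set (so it extends
to a diffeomorphism of `S⁴`) -/
def StandardAtInfinity (G : R4 → R4) : Prop :=
  ContDiff ℝ ∞ G ∧ (∃ K : R4 → R4, ContDiff ℝ ∞ K ∧ LeftInverse K G ∧ RightInverse K G) ∧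
    ∃ (O : R4 ≃ₗᵢ[ℝ] R4) (R : ℝ), ∀ x, R ≤ ‖x‖ → G x = O x

section defs

variable {m : ℕ}

/-- Coarse coordinates: there are a neighbourhood `U` of `x` and `r > 0` such that for all `y ∈ U`, all `s ∈ S` with
`0 < s < r` and all unit vectors `v` the linear coordinate `⟪v, e u - e y⟫` of the points `u ∈ U` with
`‖e u - e y‖ ≤ s` differs by at most `η s` from an affine function `ℓ + c` of `H u`. -/
def CoarseCoordinates (e : R4 → EuclideanSpace ℝ (Fin m)) (H : R4 → R4) (S : Set ℝ) (η : ℝ) (x : R4) : Prop :=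
  ∃ U ∈ 𝓝 x, ∃ r : ℝ, 0 < r ∧ ∀ y ∈ U, ∀ s ∈ S, 0 < s → s < r → ∀ v : EuclideanSpace ℝ (Fin m), ‖v‖ = 1 →
    ∃ (ℓ : R4 →L[ℝ] ℝ) (c : ℝ), ∀ u ∈ U, ‖e u - e y‖ ≤ s → |ℓ (H u) + c - inner ℝ v (e u - e y)| ≤ η * s

/-- Coarse similarity: there are a neighbourhood `U` of `x` and `r > 0` such that for all `y ∈ U` and all `s ∈ S` with
`0 < s < r` there is a factor `κ ≥ 0` such that the distances `κ ‖H u - H w‖` and `‖e u - e w‖` differ by at most
`ε s` for all points `u`, `w ∈ U` with `‖e u - e y‖ ≤ s` and `‖e w - e y‖ ≤ s`. -/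
def CoarseSimilarity (e : R4 → EuclideanSpace ℝ (Fin m)) (H : R4 → R4) (S : Set ℝ) (ε : ℝ) (x : R4) : Prop :=
  ∃ U ∈ 𝓝 x, ∃ r : ℝ, 0 < r ∧ ∀ y ∈ U, ∀ s ∈ S, 0 < s → s < r → ∃ κ : ℝ, 0 ≤ κ ∧ ∀ u ∈ U, ∀ w ∈ U,
    ‖e u - e y‖ ≤ s → ‖e w - e y‖ ≤ s → |κ * ‖H u - H w‖ - ‖e u - e w‖| ≤ ε * s

/-- Bi-Lipschitz: `‖e u - e w‖ ≤ κ ‖H u - H w‖ ≤ K ‖e u - e w‖` for all `u`, `w` near `x`, for some factor `κ`. -/
def BiLipschitz (e : R4 → EuclideanSpace ℝ (Fin m)) (H : R4 → R4) (K : ℝ) (x : R4) : Prop :=
  ∃ U ∈ 𝓝 x, ∃ κ : ℝ, ∀ u ∈ U, ∀ w ∈ U, ‖e u - e w‖ ≤ κ * ‖H u - H w‖ ∧ κ * ‖H u - H w‖ ≤ K * ‖e u - e w‖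

/-- one of the three conditions, with constants below the threshold `3 π / 16` -/
def IsCoarselyAffine (e : R4 → EuclideanSpace ℝ (Fin m)) (H : R4 → R4) (S : Set ℝ) (x : R4) : Prop :=
  (∃ η : ℝ, η < 3 * Real.pi / 16 ∧ CoarseCoordinates e H S η x) ∨
  (∃ ε : ℝ, 0 ≤ ε ∧ ε * (√2 + ε / 2) < 3 * Real.pi / 16 ∧ CoarseSimilarity e H S ε x) ∨
  ∃ K : ℝ, (K ^ 2 - 1) / (K ^ 2 + 1) < 3 * Real.pi / 16 ∧ BiLipschitz e H K x

end defs

theorem result
    -- the map of the closed ball, injective on the sphere and a local diffeomorphism at the sphere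
    (H : R4 → R4) (hc : ContinuousOn H (closedBall 0 1)) (hi : InjOn H (sphere 0 1))
    (hs : ∀ x, ‖x‖ = 1 → LocDiff H x)
    -- the map `e` which measures distances in the ball, and the set of scales
    (m : ℕ) (e : R4 → EuclideanSpace ℝ (Fin m)) (he : ContinuousOn e (closedBall 0 1))
    (hei : InjOn e (closedBall 0 1)) (hes : ∀ x, ‖x‖ < 1 → ContDiffAt ℝ ∞ e x ∧ Injective (fderiv ℝ e x))
    (S : Set ℝ) (hS : ∀ δ : ℝ, 0 < δ → ∃ s ∈ S, 0 < s ∧ s < δ)
    -- the condition at the interior points
    (h : ∀ x, ‖x‖ < 1 → LocDiff H x ∨ IsCoarselyAffine e H S x)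
    -- a neighbourhood of the set of the bad points
    (O : Set R4) (hO : IsOpen O) (hbad : ∀ x, ‖x‖ < 1 → ¬ LocDiff H x → x ∈ O) (ε : ℝ) (hε : 0 < ε) :
    ∃ G : R4 → R4, StandardAtInfinity G ∧ (∀ x, ‖x‖ = 1 → G x = H x) ∧
      (∀ x, ‖x‖ ≤ 1 → ‖G x - H x‖ < ε) ∧ ∀ x, ‖x‖ ≤ 1 → x ∉ O → G x = H x := by
  have hiff : ∀ x, LocDiff H x ↔ Pool.Agent.Y522.LD 4 H x := fun x =>
    ⟨fun h => Pool.Agent.Y522.LD_of_bij h.1 h.2, fun h => h.bij⟩
  obtain ⟨G, O', R, hb, hL, h1, h2, h3, h4⟩ := Pool.Agent.H865_sch.sch_core 3 m (by norm_num) H hc hi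
    (fun x hx => (hiff x).1 (hs x hx)) e he hei hes S hS (fun x hx hn => by
      rw [Pool.Agent.H865_small.const_four]
      rcases h x hx with h | ⟨η, hη, h⟩ | ⟨δ, hδ0, hδ, h⟩ | ⟨K, hK, h⟩
      · exact absurd ((hiff x).1 h) hn
      · exact ⟨η, hη, Or.inl h⟩
      · exact ⟨_, hδ, Or.inr (Or.inl ⟨δ, hδ0, le_rfl, h⟩)⟩
      · exact ⟨_, hK, Or.inr (Or.inr ⟨K, le_rfl, h⟩)⟩) O hO
    (fun x hx hn => hbad x hx fun hl => hn ((hiff x).1 hl)) ε hε
  obtain ⟨hG, hK⟩ := Pool.Agent.Y522.smooth_inverse hb hL
  exact ⟨G, ⟨hG, hK, O', R, h4⟩, h3, h1, h2⟩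

end Pool.Agent.Results.MP_6c077c_gt.CoarselyAffineBall
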